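import Mathlib
import Pool.Agent.H26.SeqSp

set_option autoImplicit false

open Filter Finset

namespace Pool.Agent.Results.MP_6095cf_an.Counterexample

section
variable {𝕜 X : Type} [RCLike 𝕜] [NormedAddCommGroup X] [NormedSpace 𝕜 X]
  (e : ℕ → X) (co : ℕ → StrongDual 𝕜 X)

noncomputable def P (A : Finset ℕ) (x : X) : X := ∑ i ∈ A, co i x • e i

def IsSchauder : Prop :=
  (∀ k n, co k (e n) = if k = n then 1 else 0) ∧ Dense (Submodule.span 𝕜 (Set.range e) : Set X) ∧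
    (∀ x, (∀ n, co n x = 0) → x = 0) ∧ (∃ C, ∀ i, ‖e i‖ ≤ C ∧ ‖co i‖ ≤ C) ∧
    ∃ C, ∀ m x, ‖P e co (range m) x‖ ≤ C * ‖x‖

def Greedy (x : X) (m : ℕ) (A : Finset ℕ) : Prop :=
  A.card = m ∧ ∀ i ∈ A, ∀ j ∉ A, ‖co j x‖ ≤ ‖co i x‖

def QG (n : ℕ → ℕ) : Prop := ∃ C, ∀ k x A, Greedy co x (n k) A → ‖P e co A x‖ ≤ C * ‖x‖

def PG (n : ℕ → ℕ) : Prop :=
  ∃ C, ∀ k x A, Greedy co x (n k) A → ‖x - P e co A x‖ ≤ C * ‖x - P e co (range (n k)) x‖

def Cons (n : ℕ → ℕ) : Prop := ∃ C, ∀ k (A B : Finset ℕ), A.card = B.card →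
  (∀ i ∈ A, i < n k) → (∀ j ∈ B, n k ≤ j) → ‖∑ i ∈ A, e i‖ ≤ C * ‖∑ j ∈ B, e j‖

end

def LargeGaps (n : ℕ → ℕ) : Prop :=
  StrictMono n ∧ (∀ k, 0 < n k) ∧ ∀ l : ℕ, ∃ᶠ k in atTop, l * n k < n (k + 1)

def n : ℕ → ℕ
  | 0 => 1
  | k + 1 => 4 * (k + 2) * n k

lemma n_pos (k : ℕ) : 0 < n k := by induction k <;> simp [n, *]

lemma n_two (k : ℕ) : 2 * n k ≤ n (k + 1) := by rw [n]; nlinarith [n_pos k]

lemma n_mono : StrictMono n := strictMono_nat_of_lt_succ fun k => by linarith [n_two k, n_pos k]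

def D (k : ℕ) : Finset ℕ := Ico (n (k + 1)) (n (k + 1) + 2 * (k + 1) * n k)

def T (j : ℕ) : Finset ℕ := (range j).biUnion D

lemma d_le (k : ℕ) : 2 * (2 * (k + 1) * n k + 2 * n k) = n (k + 1) := by rw [n]; ring

lemma T_lt {j i : ℕ} (h : i ∈ T j) : i < 2 * n j := by
  obtain ⟨k, hk, h⟩ := mem_biUnion.1 h
  have := n_mono.monotone (Nat.succ_le_of_lt (mem_range.1 hk))
  linarith [(mem_Ico.1 h).2, d_le k, n_pos k]

lemma T_card (j : ℕ) : 2 * (T j).card ≤ n j := by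
  rcases j with _ | j
  · simp [T]
  · have : T (j + 1) ⊆ D j ∪ range (2 * n j) := by
      rw [T, range_add_one, biUnion_insert]
      exact union_subset_union_right fun i h => mem_range.2 (T_lt h)
    have h := (card_le_card this).trans (card_union_le _ _)
    rw [D, Nat.card_Ico, card_range, Nat.add_sub_cancel_left] at h
    linarith [d_le j]

def Adm (E : Finset ℕ) : Prop := ∀ k, (E ∩ D k).card ≤ n k

lemma adm1 {E : Finset ℕ} {j : ℕ} (h : E.card ≤ n j) (h' : Disjoint E (T j)) : Adm E := fun k => by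
  rcases lt_or_ge k j with hk | hk
  · rw [disjoint_iff_inter_eq_empty.1 (h'.mono_right (subset_biUnion_of_mem D (mem_range.2 hk)))]
    simp
  · exact (card_le_card inter_subset_left).trans (h.trans (n_mono.monotone hk))

lemma adm2 {E : Finset ℕ} {j : ℕ} (h : ∀ i ∈ E, i < 2 * n j) (h' : Disjoint E (T j)) : Adm E :=
  fun k => by
  rcases lt_or_ge k j with hk | hk
  · rw [disjoint_iff_inter_eq_empty.1 (h'.mono_right (subset_biUnion_of_mem D (mem_range.2 hk)))]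
    simp
  · rw [disjoint_iff_inter_eq_empty.1 (disjoint_left.2 fun i h1 h2 => by
      linarith [h i h1, (mem_Ico.1 h2).1, n_two k, n_mono.monotone hk])]
    simp

lemma sum_cmp {U V : Finset ℕ} {f : ℕ → ℝ} (h0 : ∀ i, 0 ≤ f i) (h : U.card ≤ V.card)
    (hf : ∀ v ∈ V, ∀ u ∈ U, f u ≤ f v) : ∑ u ∈ U, f u ≤ ∑ v ∈ V, f v := by
  rcases V.eq_empty_or_nonempty with rfl | hV
  · simp [card_eq_zero.1 (Nat.le_zero.1 h)]
  · obtain ⟨v, hv, hm⟩ := V.exists_min_image f hV
    refine (sum_le_card_nsmul _ _ _ (hf v hv)).trans (le_trans ?_ (card_nsmul_le_sum _ _ _ hm))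
    exact nsmul_le_nsmul_left (h0 v) h

abbrev W (𝕜 : Type) [RCLike 𝕜] : Type := {w : Finset ℕ × (ℕ → 𝕜) //
  (∀ i, ‖w.2 i‖ ≤ 1) ∧ (Adm w.1 ∨ ∃ m, w = (range m, 1))}

noncomputable def L (𝕜 : Type) [RCLike 𝕜] (w : W 𝕜) : (ℕ → 𝕜) →L[𝕜] 𝕜 :=
  ∑ i ∈ w.1.1, w.1.2 i • ContinuousLinearMap.proj i

lemma L_apply {𝕜 : Type} [RCLike 𝕜] (w : W 𝕜) (c : ℕ → 𝕜) :
    L 𝕜 w c = ∑ i ∈ w.1.1, w.1.2 i * c i := by simp [L]

lemma adm0 (i : ℕ) : Adm {i} := fun k =>
  (card_le_card inter_subset_left).trans ((card_singleton i).trans_le (n_pos k))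

lemma space (𝕜 : Type) [RCLike 𝕜] : ∃ (X : Type) (_ : NormedAddCommGroup X) (_ : NormedSpace 𝕜 X)
    (_ : CompleteSpace X) (e : ℕ → X) (co : ℕ → StrongDual 𝕜 X),
    (∀ k n, co k (e n) = if k = n then 1 else 0) ∧ Dense (Submodule.span 𝕜 (Set.range e) : Set X) ∧
    (∀ x, (∀ n, co n x = 0) → x = 0) ∧ (∀ E x, Adm E → ∑ i ∈ E, ‖co i x‖ ≤ ‖x‖) ∧
    (∀ m x, ‖∑ i ∈ range m, co i x‖ ≤ ‖x‖) ∧ ∀ x C, (∀ E, Adm E → ∑ i ∈ E, ‖co i x‖ ≤ C) →
      (∀ m, ‖∑ i ∈ range m, co i x‖ ≤ C) → ‖x‖ ≤ C := by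
  obtain ⟨X, _, _, _, e, co, h1, h2, h3, h4, h5⟩ := H26.SeqSp.exists_space 𝕜 (L 𝕜)
    (fun j => ⟨1, fun w => by
      rw [L_apply]
      simp only [Pi.single_apply, mul_ite, mul_one, mul_zero, sum_ite_eq']
      split_ifs
      · exact w.2.1 j
      · simp⟩)
    fun j => ⟨⟨({j}, 1), by simp, Or.inl (adm0 j)⟩, .id 𝕜 𝕜, fun c => by simp [L_apply]⟩
  refine ⟨X, inferInstance, inferInstance, inferInstance, e, co, h1, h2, h3, fun E x hE => ?_,
    fun m x => by simpa [L_apply] using h4 ⟨(range m, 1), by simp, Or.inr ⟨m, rfl⟩⟩ x,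
    fun x C a b => h5 x C (by simpa using b 0) ?_⟩
  · choose s s1 s2 using fun i => RCLike.exists_norm_eq_mul_self (co i x)
    have := h4 ⟨(E, s), fun i => (s1 i).le, Or.inl hE⟩ x
    rw [L_apply] at this
    simp only [← s2, ← RCLike.ofReal_sum, RCLike.norm_ofReal] at this
    exact (le_abs_self _).trans this
  · rintro ⟨w, w1, w2 | ⟨m, rfl⟩⟩
    · rw [L_apply]
      exact (norm_sum_le _ _).trans ((sum_le_sum fun i _ => (norm_mul_le _ _).trans
        (mul_le_of_le_one_left (norm_nonneg _) (w1 i))).trans (a _ w2))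
    · simpa [L_apply] using b m

theorem result (𝕜 : Type) [RCLike 𝕜] : ∃ (n : ℕ → ℕ) (X : Type) (_ : NormedAddCommGroup X)
    (_ : NormedSpace 𝕜 X) (_ : CompleteSpace X) (e : ℕ → X) (co : ℕ → StrongDual 𝕜 X),
    LargeGaps n ∧ IsSchauder e co ∧ QG e co n ∧ Cons e n ∧ ¬ PG e co n := by
  obtain ⟨X, _, _, _, e, co, h1, h2, h3, n1, n2, n3⟩ := space 𝕜
  have cs : ∀ (A : Finset ℕ) (c : ℕ → 𝕜) i, co i (∑ j ∈ A, c j • e j) = if i ∈ A then c i else 0 :=
    fun A c i => by simp [h1]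
  have cp : ∀ A x i, co i (P e co A x) = if i ∈ A then co i x else 0 := fun A x => cs A _
  have c1 : ∀ (A : Finset ℕ) i, co i (∑ j ∈ A, e j) = if i ∈ A then 1 else 0 := fun A i => by
    simpa using cs A 1 i
  have la : ∀ A x E, Adm E → ∑ i ∈ E, ‖co i (P e co A x)‖ ≤ ‖x‖ := fun A x E hE =>
    (sum_le_sum fun i _ => by rw [cp]; split_ifs <;> simp).trans (n1 E x hE)
  have e1 : ∀ i, ‖e i‖ ≤ 1 := fun i => n3 _ _ (fun E _ => by
    simp only [h1, apply_ite norm, norm_one, norm_zero, sum_ite_eq']; split_ifs <;> simp)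
    fun m => by simp only [h1, sum_ite_eq']; split_ifs <;> simp
  have lb : ∀ B : Finset ℕ, (B.card : ℝ) ≤ ‖∑ j ∈ B, e j‖ := fun B => by
    obtain ⟨m, hm⟩ := B.exists_nat_subset_range
    have := n2 m (∑ j ∈ B, e j)
    simpa [c1, inter_eq_right.2 hm] using this
  refine ⟨n, X, inferInstance, inferInstance, inferInstance, e, co,
    ⟨n_mono, n_pos, fun l => ((eventually_ge_atTop l).mono fun k hk => by
      rw [n]; nlinarith [n_pos k]).frequently⟩,
    ⟨h1, h2, h3, ⟨1, fun i => ⟨e1 i, (co i).opNorm_le_bound zero_le_one fun x => by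
      simpa using n1 {i} x (adm0 i)⟩⟩, 1, fun m x => ?_⟩, ⟨4, fun j x G hG => ?_⟩,
    ⟨1, fun _ A B h _ _ => ?_⟩, ?_⟩
  · rw [one_mul]
    refine n3 _ _ (la _ x) fun k => ?_
    simp only [cp, sum_ite_mem, range_inter_range]
    exact n2 _ x
  · refine n3 _ _ (fun E hE => by linarith [la G x E hE, norm_nonneg x]) fun m => ?_
    have a1 : Adm (G \ T j) := adm1 ((card_le_card sdiff_subset).trans hG.1.le) sdiff_disjoint
    have a2 : ∑ i ∈ T j \ G, ‖co i x‖ ≤ ∑ i ∈ G \ T j, ‖co i x‖ :=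
      sum_cmp (fun _ => norm_nonneg _) (by
        have := le_card_sdiff (T j) G
        have := card_le_card (sdiff_subset (s := T j) (t := G))
        have := T_card j
        have := hG.1
        omega) fun v hv u hu => hG.2 v (mem_sdiff.1 hv).1 u (mem_sdiff.1 hu).2
    have a3 : Adm (range (min m (2 * n j)) \ T j) := adm2 (fun i h =>
      (mem_range.1 (mem_sdiff.1 h).1).trans_le (min_le_right _ _)) sdiff_disjoint
    have a4 : ∑ i ∈ range m, co i (P e co G x) = ∑ i ∈ range m ∩ (G \ T j), co i x +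
        (∑ i ∈ range (min m (2 * n j)), co i x - ∑ i ∈ range (min m (2 * n j)) \ T j, co i x) -
          ∑ i ∈ range m ∩ (T j \ G), co i x := by
      rw [← sum_inter_add_sum_sdiff (range (min m (2 * n j))) (T j), add_sub_cancel_right,
        show range (min m (2 * n j)) ∩ T j = range m ∩ T j from Finset.ext fun i => by
          simp only [mem_inter, mem_range, lt_min_iff]
          exact ⟨fun h => ⟨h.1.1, h.2⟩, fun h => ⟨⟨h.1, T_lt h.2⟩, h.2⟩⟩]
      simp only [← sum_ite_mem, ← sum_add_distrib, ← sum_sub_distrib, cp]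
      refine sum_congr rfl fun i _ => ?_
      by_cases a : i ∈ G <;> by_cases b : i ∈ T j <;> simp [a, b]
    have b : ∀ U V : Finset ℕ, ‖∑ i ∈ U ∩ V, co i x‖ ≤ ∑ i ∈ V, ‖co i x‖ := fun U V =>
      (norm_sum_le _ _).trans (sum_le_sum_of_subset_of_nonneg inter_subset_right
        fun _ _ _ => norm_nonneg _)
    rw [a4]
    refine (norm_sub_le _ _).trans ((add_le_add_left ((norm_add_le _ _).trans
      (add_le_add_right (norm_sub_le _ _) _)) _).trans ?_)
    linarith [b (range m) (G \ T j), b (range m) (T j \ G), n1 _ x a1, n1 _ x a3,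
      n2 (min m (2 * n j)) x, norm_sum_le (range (min m (2 * n j)) \ T j) fun i => co i x]
  · rw [one_mul]
    refine (norm_sum_le _ _).trans ((sum_le_card_nsmul _ _ _ fun i _ => e1 i).trans ?_)
    simpa [h] using lb B
  · rintro ⟨C, hC⟩
    obtain ⟨k, hk⟩ := exists_nat_gt C
    set N := n (k + 1)
    set d := 2 * (k + 1) * n k with hd
    have dN : d ≤ N := by linarith [d_le k]
    set x : X := ∑ i ∈ range (N + d), (if i < N then 1 else (-1) ^ i : 𝕜) • e i
    have cx : ∀ i, co i x = if i < N + d then if i < N then 1 else (-1) ^ i else 0 := fun i => by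
      rw [cs]; simp only [mem_range]
    have := hC (k + 1) x (Ico d (N + d)) ⟨by rw [Nat.card_Ico, Nat.add_sub_cancel], fun i hi j _ => by
      rw [cx, cx, if_pos (mem_Ico.1 hi).2]
      split_ifs <;> simp⟩
    have b1 : x - P e co (Ico d (N + d)) x = ∑ j ∈ range d, e j := sub_eq_zero.1 (h3 _ fun i => by
      simp only [map_sub, cp, cx, c1, mem_Ico, mem_range]
      split_ifs <;> first | omega | simp)
    have b2 : ∀ i, co i (x - P e co (range N) x) = if i ∈ D k then (-1) ^ i else 0 := fun i => by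
      simp only [map_sub, cp, cx, D, mem_Ico, mem_range]
      split_ifs <;> first | omega | simp
    have b3 : ‖x - P e co (range N) x‖ ≤ n k := n3 _ _ (fun E hE => by
      simpa [b2, apply_ite norm] using hE k) fun m => by
      simp only [b2, sum_ite_mem]
      rw [D, range_eq_Ico, Ico_inter_Ico, sum_Ico_eq_sum_range]
      simp only [pow_add, ← mul_sum, neg_one_geom_sum, norm_mul, norm_pow, norm_neg, norm_one,
        one_pow, one_mul]
      split_ifs
      · simp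
      · simpa using Nat.succ_le_of_lt (n_pos k)
    have b4 := lb (range d)
    rw [← b1, card_range, hd] at b4
    push_cast at b4
    have b5 : (0 : ℝ) < n k := by exact_mod_cast n_pos k
    have b6 := mul_le_mul hk.le b3 (norm_nonneg _) k.cast_nonneg
    nlinarith [k.cast_nonneg (α := ℝ)]

end Pool.Agent.Results.MP_6095cf_an.Counterexample
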